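import Mathlib

namespace Pool.Agent.Results.MP_9d9710_co.Counter

/-- `P = {1, ..., (p-1)/2}` inside `F_p`. -/
def P (p : ℕ) : Set (ZMod p) := {y | 1 ≤ y.val ∧ y.val ≤ (p - 1) / 2}

/-- The images of `S₀ = {(0,y,z) : y ∈ P, -z ∈ P}` under the permutations of the coordinates. -/
def S (p : ℕ) : Set (Fin 3 → ZMod p) :=
  {x | ∃ σ : Equiv.Perm (Fin 3), x (σ 0) = 0 ∧ x (σ 1) ∈ P p ∧ -x (σ 2) ∈ P p}

/-- No difference of two elements of `A` lies in `S`. -/
def SFree {p : ℕ} (A : Finset (Fin 3 → ZMod p)) : Prop := ∀ a ∈ A, ∀ b ∈ A, a - b ∉ S p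

theorem big (p : ℕ) (hp : 0 < p) : ∃ A : Finset (Fin 3 → ZMod p), SFree A ∧ A.card = p ^ 2 := by
  classical
  have : NeZero p := ⟨hp.ne'⟩
  refine ⟨Finset.univ.image fun q : ZMod p × ZMod p => ![q.1, q.2, q.2], ?_, ?_⟩
  · simp only [SFree, Finset.forall_mem_image]
    rintro a - b - ⟨σ, h0, h1, h2⟩
    have k : ∀ t : ZMod p, t ∈ P p → -t ∈ P p → False := fun t u v => by
      have e := ZMod.neg_val t
      have := u.1; have := u.2; have := v.2; have := ZMod.val_lt t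
      split_ifs at e with z
      · subst z; simp at *
      · omega
    have z : (0 : ZMod p) ∉ P p := fun u => by simpa using u.1
    generalize hx : ![a.1, a.2, a.2] - ![b.1, b.2, b.2] = x at *
    have e : x 1 = x 2 := by simp [← hx]
    have n1 := σ.injective.ne (show (0 : Fin 3) ≠ 1 by decide)
    have n2 := σ.injective.ne (show (0 : Fin 3) ≠ 2 by decide)
    have n3 := σ.injective.ne (show (1 : Fin 3) ≠ 2 by decide)
    generalize σ 0 = i, σ 1 = j, σ 2 = l at *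
    fin_cases i <;> fin_cases j <;> fin_cases l <;> first | contradiction | skip
    all_goals simp only [Fin.zero_eta, Fin.mk_one, Fin.reduceFinMk] at h0 h1 h2
    · exact k _ h1 (e ▸ h2)
    · exact k _ h1 (e ▸ h2)
    · exact z (by rwa [← e, h0, neg_zero] at h2)
    · exact z (by rwa [← e, h0] at h1)
    · exact z (by rwa [e, h0, neg_zero] at h2)
    · exact z (by rwa [e, h0] at h1)
  · rw [Finset.card_image_of_injective _ fun a b e =>
      Prod.ext (congrFun e 0) (congrFun e 1)]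
    simp [sq]

theorem result : (∀ p : ℕ, 0 < p → ∃ A : Finset (Fin 3 → ZMod p), SFree A ∧ A.card = p ^ 2) ∧
    ¬ ∃ δ : ℝ, 0 < δ ∧ ∃ p₀ : ℕ, ∀ p ≥ p₀, p.Prime → ∀ A : Finset (Fin 3 → ZMod p), SFree A →
      (A.card : ℝ) ≤ (p : ℝ) ^ (2 - δ) := by
  refine ⟨big, fun ⟨δ, h, p₀, H⟩ => ?_⟩
  obtain ⟨p, h1, h2⟩ := Nat.exists_infinite_primes p₀
  obtain ⟨A, a1, a2⟩ := big p h2.pos
  have := H p h1 h2 A a1
  have q : (1 : ℝ) < p := by exact_mod_cast h2.one_lt
  rw [a2, Nat.cast_pow, ← Real.rpow_natCast, Real.rpow_le_rpow_left_iff q] at this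
  norm_num at this
  linarith

end Pool.Agent.Results.MP_9d9710_co.Counter
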